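import Mathlib

/-!
Sums of powers modulo squares.
-/

open Finset

namespace KS7_53.Psum

/-- `0^e + 1^e + ... + (N-1)^e` -/
def R (e N : ℕ) : ℤ := ∑ i ∈ range N, (i : ℤ) ^ e

theorem expand1 (x y : ℤ) (m : ℕ) : ∃ k : ℤ, (x + y) ^ (m + 1) =
    x ^ (m + 1) + (m + 1) * x ^ m * y + k * y ^ 2 := by
  induction m with
  | zero => exact ⟨0, by simp⟩
  | succ m ih =>
    obtain ⟨k, hk⟩ := ih
    refine ⟨k * (x + y) + (m + 1) * x ^ m, ?_⟩
    rw [pow_succ (x + y), hk]
    push_cast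
    ring

/-- reflection -/
theorem refl {m : ℕ} (hm : Odd m) (h3 : 3 ≤ m) (N : ℕ) :
    (N : ℤ) ^ 2 ∣ 2 * R m N - m * N * R (m - 1) N := by
  obtain ⟨l, rfl⟩ : ∃ l, m = l + 1 := ⟨m - 1, by omega⟩
  have hle : Even l := by
    rcases Nat.even_or_odd l with h | h
    · exact h
    · exact absurd hm (by rw [Nat.not_odd_iff_even]; exact h.add_one)
  choose k hk using fun a : ℕ => expand1 (-(a : ℤ)) (N : ℤ) l
  have h1 : R (l + 1) (N + 1) = ∑ j ∈ range (N + 1), ((N : ℤ) - j) ^ (l + 1) := by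
    rw [R, ← Finset.sum_range_reflect]
    refine Finset.sum_congr rfl fun j hj => ?_
    have := Finset.mem_range.1 hj
    rw [show N + 1 - 1 - j = N - j by omega, Nat.cast_sub (by omega)]
  have h2 : R (l + 1) (N + 1) = - R (l + 1) (N + 1) + (l + 1) * N * R l (N + 1) +
      N ^ 2 * ∑ j ∈ range (N + 1), k j := by
    nth_rewrite 1 [h1]
    rw [R, R, Finset.mul_sum, Finset.mul_sum, ← Finset.sum_neg_distrib, ← Finset.sum_add_distrib,
      ← Finset.sum_add_distrib]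
    refine Finset.sum_congr rfl fun j _ => ?_
    rw [show (N : ℤ) - j = -(j : ℤ) + N by ring, hk j, hle.add_one.neg_pow, hle.neg_pow]
    ring
  have h3 : R (l + 1) (N + 1) = R (l + 1) N + N ^ (l + 1) := by rw [R, Finset.sum_range_succ, R]
  have h4 : R l (N + 1) = R l N + N ^ l := by rw [R, Finset.sum_range_succ, R]
  rw [h3, h4] at h2
  obtain ⟨l', rfl⟩ : ∃ l', l = l' + 2 := ⟨l - 2, by omega⟩
  rw [show l' + 2 + 1 - 1 = l' + 2 by omega]
  refine ⟨(∑ j ∈ range (N + 1), k j) - 2 * N ^ (l' + 1) + (l' + 2 + 1) * N ^ (l' + 1), ?_⟩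
  push_cast at h2 ⊢
  linear_combination h2

/-- splitting into residues -/
theorem R_mul (e M u : ℕ) : R e (M * u) = ∑ j ∈ range u, ∑ i ∈ range M, ((i : ℤ) + M * j) ^ e := by
  induction u with
  | zero => simp [R]
  | succ u ih =>
    rw [Finset.sum_range_succ, ← ih, R, Nat.mul_succ, Finset.sum_range_add, R]
    congr 1
    refine Finset.sum_congr rfl fun i _ => ?_
    push_cast; ring

theorem R_period (e M u : ℕ) : (M : ℤ) ∣ R e (M * u) - u * R e M := by
  have h : R e (M * u) - u * R e M =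
      ∑ j ∈ range u, ∑ i ∈ range M, (((i : ℤ) + M * j) ^ e - (i : ℤ) ^ e) := by
    rw [R_mul]
    simp only [Finset.sum_sub_distrib]
    rw [Finset.sum_const, Finset.card_range, R]
    simp
  rw [h]
  refine Finset.dvd_sum fun j _ => Finset.dvd_sum fun i _ => ?_
  have := sub_dvd_pow_sub_pow ((i : ℤ) + M * j) i e
  rw [add_sub_cancel_left] at this
  exact (Dvd.intro _ rfl).trans this

theorem sum_lin (u : ℕ) : 2 * ∑ j ∈ range u, (j : ℤ) = u * (u - 1) := by
  induction u with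
  | zero => simp
  | succ u ih => rw [Finset.sum_range_succ, mul_add, ih]; push_cast; ring

/-- second order version -/
theorem R_second (e M u : ℕ) (he : 1 ≤ e) : ∃ w : ℤ,
    2 * R e (M * u) = 2 * u * R e M + e * M * (u * (u - 1)) * R (e - 1) M + 2 * M ^ 2 * w := by
  obtain ⟨l, rfl⟩ : ∃ l, e = l + 1 := ⟨e - 1, by omega⟩
  choose k hk using fun (i j : ℕ) => expand1 (i : ℤ) ((M : ℤ) * j) l
  refine ⟨∑ j ∈ range u, ∑ i ∈ range M, k i j * (j : ℤ) ^ 2, ?_⟩
  have h1 : R (l + 1) (M * u) = u * R (l + 1) M +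
      (l + 1) * M * (∑ j ∈ range u, (j : ℤ)) * R l M +
      M ^ 2 * ∑ j ∈ range u, ∑ i ∈ range M, k i j * (j : ℤ) ^ 2 := by
    rw [R_mul]
    have : ∀ j : ℕ, ∑ i ∈ range M, ((i : ℤ) + M * j) ^ (l + 1) =
        R (l + 1) M + (l + 1) * M * j * R l M + M ^ 2 * ∑ i ∈ range M, k i j * (j : ℤ) ^ 2 := by
      intro j
      rw [R, R, Finset.mul_sum, Finset.mul_sum, ← Finset.sum_add_distrib,
        ← Finset.sum_add_distrib]
      refine Finset.sum_congr rfl fun i _ => ?_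
      rw [hk i j]; ring
    simp only [this, Finset.sum_add_distrib]
    rw [Finset.sum_const, Finset.card_range, ← Finset.mul_sum, ← Finset.sum_mul, ← Finset.mul_sum]
    simp
  rw [h1, show l + 1 - 1 = l by omega]
  push_cast
  linear_combination ((l : ℤ) + 1) * M * R l M * sum_lin u

section prime
variable {q : ℕ} [hq : Fact q.Prime]

theorem R_prime (e : ℕ) (he : 1 ≤ e) :
    ((R e q : ℤ) : ZMod q) = if (q - 1) ∣ e then -1 else 0 := by
  have h2 : ∑ a ∈ range q, ((a : ℕ) : ZMod q) ^ e = ∑ x : ZMod q, x ^ e := by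
    refine Finset.sum_nbij' (fun a => (a : ZMod q)) (fun x => x.val) ?_ ?_ ?_ ?_ ?_
    · intro a _; exact Finset.mem_univ _
    · intro x _; exact Finset.mem_range.2 (ZMod.val_lt x)
    · intro a ha; exact ZMod.val_cast_of_lt (Finset.mem_range.1 ha)
    · intro x _; exact ZMod.natCast_zmod_val x
    · intro a _; rfl
  have h3 : ∑ x : ZMod q, x ^ e = if (q - 1) ∣ e then (-1 : ZMod q) else 0 := by
    classical
    have h := FiniteField.sum_pow_units (ZMod q) e
    rw [ZMod.card] at h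
    rw [← h]
    have h1 : ∑ z : ZMod q, z ^ e = ∑ z ∈ (univ : Finset (ZMod q)) \ {0}, z ^ e := by
      rw [← Finset.sum_sdiff (Finset.subset_univ ({0} : Finset (ZMod q)))]
      simp [show e ≠ 0 by omega]
    rw [h1]
    let φ : (ZMod q)ˣ ↪ ZMod q := ⟨fun x ↦ x, Units.val_injective⟩
    have h2 : (univ : Finset (ZMod q)ˣ).map φ = univ \ {0} := by
      ext x
      simpa only [mem_map, mem_univ, Function.Embedding.coeFn_mk, true_and, mem_sdiff,
        mem_singleton, φ] using! isUnit_iff_ne_zero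
    rw [← h2, Finset.sum_map]
    rfl
  rw [R]; push_cast
  rw [h2, h3]

/-- prime powers, `q` odd -/
theorem R_pow_odd (hodd : q % 2 = 1) (e : ℕ) (he : 1 ≤ e) (c : ℤ)
    (hc : (q : ℤ) ∣ R e q - c) (a : ℕ) :
    (q : ℤ) ^ (a + 1) ∣ R e (q ^ (a + 1)) - q ^ a * c := by
  induction a with
  | zero => simpa using hc
  | succ a ih =>
    obtain ⟨w, hw⟩ := R_second e (q ^ (a + 1)) q he
    rw [← pow_succ] at hw
    obtain ⟨x, hx⟩ := ih
    obtain ⟨b, hb⟩ : ∃ b : ℤ, (q : ℤ) - 1 = 2 * b := ⟨((q : ℤ) - 1) / 2, by omega⟩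
    push_cast at hw
    rw [hb] at hw
    refine ⟨x + e * b * R (e - 1) (q ^ (a + 1)) + q ^ a * w, ?_⟩
    have h2 : (2 : ℤ) * (R e (q ^ (a + 1 + 1)) - q ^ (a + 1) * c) =
        2 * (q ^ (a + 1 + 1) * (x + e * b * R (e - 1) (q ^ (a + 1)) + q ^ a * w)) := by
      linear_combination hw + 2 * q * hx
    exact mul_left_cancel₀ two_ne_zero h2

end prime

/-- powers of two -/
theorem R_pow_two (e : ℕ) (he : 1 ≤ e) (a : ℕ) : (2 : ℤ) ^ a ∣ R e (2 ^ (a + 1)) := by
  induction a with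
  | zero => simp
  | succ a ih =>
    obtain ⟨w, hw⟩ := R_second e (2 ^ (a + 1)) 2 he
    rw [← pow_succ] at hw
    obtain ⟨x, hx⟩ := ih
    push_cast at hw
    refine ⟨x + e * R (e - 1) (2 ^ (a + 1)) + 2 ^ (a + 1) * w, ?_⟩
    have h2 : (2 : ℤ) * R e (2 ^ (a + 1 + 1)) =
        2 * (2 ^ (a + 1) * (x + e * R (e - 1) (2 ^ (a + 1)) + 2 ^ (a + 1) * w)) := by
      linear_combination hw + 4 * hx
    exact mul_left_cancel₀ two_ne_zero h2

end KS7_53.Psum
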