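import Pool.Agent.KS7_53.Psum.Basic

/-!
When is `1^m + ... + n^m` divisible by `(1 + ... + n)^2`?
-/

open Finset

namespace KS7_53.Psum

theorem crit_odd {q : ℕ} [hq : Fact q.Prime] (hodd : q % 2 = 1) {m : ℕ} (hm : Odd m) (h3 : 3 ≤ m)
    {a u N : ℕ} (ha : 1 ≤ a) (hu : ¬ q ∣ u) (hN : N = q ^ a * u) {S : ℤ}
    (hS : (N : ℤ) ^ 2 ∣ S - R m N) :
    (q : ℤ) ^ (2 * a) ∣ S ↔ ((q - 1) ∣ (m - 1) → q ∣ m) := by
  have hprime : Prime (q : ℤ) := Nat.prime_iff_prime_int.1 hq.out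
  obtain ⟨b, rfl⟩ : ∃ b, a = b + 1 := ⟨a - 1, by omega⟩
  obtain ⟨x, hx⟩ := refl hm h3 N
  obtain ⟨s, hs⟩ := hS
  obtain ⟨y, hy⟩ := R_period (m - 1) (q ^ (b + 1)) u
  set c : ℤ := if (q - 1) ∣ (m - 1) then -1 else 0 with hc
  have hcq : (q : ℤ) ∣ R (m - 1) q - c := by
    rw [← ZMod.intCast_zmod_eq_zero_iff_dvd]
    push_cast
    rw [R_prime (m - 1) (by omega), hc]
    split_ifs <;> simp
  obtain ⟨z, hz⟩ := R_pow_odd hodd (m - 1) (by omega) c hcq b
  rw [← hN] at hy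
  have hNz : (N : ℤ) = q ^ (b + 1) * u := by rw [hN]; push_cast; ring
  push_cast at hy
  -- `2 S = m u² c q^(2a-1) + q^(2a) W`
  obtain ⟨W, hW⟩ : ∃ W : ℤ, 2 * S = q ^ (2 * b + 1) * (m * u ^ 2 * c) + q ^ (2 * (b + 1)) * W := by
    refine ⟨m * u * (u * z + y) + u ^ 2 * (x + 2 * s), ?_⟩
    have e1 : R (m - 1) N = u * (q ^ b * c + q ^ (b + 1) * z) + q ^ (b + 1) * y := by
      linear_combination hy + (u : ℤ) * hz
    have e2 : 2 * S = m * N * R (m - 1) N + N ^ 2 * (x + 2 * s) := by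
      linear_combination 2 * hs + hx
    rw [e2, e1, hNz]
    ring
  have hq2 : IsCoprime ((q : ℤ) ^ (2 * (b + 1))) 2 := by
    apply IsCoprime.pow_left
    obtain ⟨l, hl⟩ : ∃ l : ℤ, (q : ℤ) = 2 * l + 1 := ⟨(q : ℤ) / 2, by omega⟩
    exact ⟨1, -l, by rw [hl]; ring⟩
  have h1 : (q : ℤ) ^ (2 * (b + 1)) ∣ S ↔ (q : ℤ) ^ (2 * (b + 1)) ∣ 2 * S :=
    ⟨fun h => h.mul_left 2, fun h => hq2.dvd_of_dvd_mul_left h⟩
  have hq0 : (q : ℤ) ^ (2 * b + 1) ≠ 0 := pow_ne_zero _ hprime.ne_zero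
  rw [h1, hW, dvd_add_left (dvd_mul_right _ _), show 2 * (b + 1) = 2 * b + 1 + 1 by ring,
    pow_succ, mul_dvd_mul_iff_left hq0]
  by_cases hd : (q - 1) ∣ (m - 1)
  · rw [hc, if_pos hd]
    constructor
    · intro h _
      have h2 : (q : ℤ) ∣ (m : ℤ) * (u : ℤ) ^ 2 := by
        have := (dvd_neg (α := ℤ)).2 h
        simpa using this
      rcases hprime.dvd_or_dvd h2 with h' | h'
      · exact_mod_cast h'
      · exfalso
        apply hu
        exact_mod_cast hprime.dvd_of_dvd_pow h'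
    · intro h
      have h' : (q : ℤ) ∣ (m : ℤ) := by exact_mod_cast h hd
      exact (h'.mul_right _).mul_right _
  · rw [hc, if_neg hd]
    simp [hd]

theorem crit_two {m : ℕ} (hm : Odd m) (h3 : 3 ≤ m)
    {a u N : ℕ} (hN : N = 2 ^ (a + 1) * u) {S : ℤ}
    (hS : (N : ℤ) ^ 2 ∣ S - R m N) : (2 : ℤ) ^ (2 * a) ∣ S := by
  obtain ⟨x, hx⟩ := refl hm h3 N
  obtain ⟨s, hs⟩ := hS
  obtain ⟨y, hy⟩ := R_period (m - 1) (2 ^ (a + 1)) u
  obtain ⟨z, hz⟩ := R_pow_two (m - 1) (by omega) a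
  rw [← hN] at hy
  have hNz : (N : ℤ) = 2 ^ (a + 1) * u := by rw [hN]; push_cast; ring
  push_cast at hy
  refine ⟨m * u * (u * z + 2 * y) + 2 * u ^ 2 * (x + 2 * s), ?_⟩
  have e1 : R (m - 1) N = u * (2 ^ a * z) + 2 ^ (a + 1) * y := by
    linear_combination hy + (u : ℤ) * hz
  have e2 : 2 * S = m * N * R (m - 1) N + N ^ 2 * (x + 2 * s) := by
    linear_combination 2 * hs + hx
  have e3 : 2 * S = 2 * (2 ^ (2 * a) * (m * u * (u * z + 2 * y) + 2 * u ^ 2 * (x + 2 * s))) := by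
    rw [e2, e1, hNz]
    ring
  exact mul_left_cancel₀ two_ne_zero e3

/-- `1^m + ... + n^m` -/
def Q (m n : ℕ) : ℤ := ∑ i ∈ Icc 1 n, (i : ℤ) ^ m

theorem Q_eq {m : ℕ} (hm : 2 ≤ m) (n N : ℕ) (hN : N = n ∨ N = n + 1) :
    (N : ℤ) ^ 2 ∣ Q m n - R m N := by
  have h1 : Q m n = R m (n + 1) := by
    rw [Q, R, Finset.sum_range_succ']
    simp only [Nat.cast_zero, zero_pow (show m ≠ 0 by omega), add_zero]
    rw [Finset.range_eq_Ico, Finset.sum_Ico_add' (fun i : ℕ => (i : ℤ) ^ m) 0 n 1]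
    rfl
  rcases hN with h | h
  · have h2 : R m (n + 1) = R m n + (n : ℤ) ^ m := by rw [R, Finset.sum_range_succ, R]
    rw [h1, h2, h, add_sub_cancel_left]
    exact pow_dvd_pow _ hm
  · rw [h1, h, sub_self]; exact dvd_zero _

theorem Q_one (n : ℕ) : 2 * Q 1 n = n * (n + 1) := by
  induction n with
  | zero => simp [Q]
  | succ n ih =>
    have : Q 1 (n + 1) = Q 1 n + (n + 1) := by
      rw [Q, Finset.sum_Icc_succ_top (by omega), Q]; push_cast; ring
    rw [this, mul_add, ih]; push_cast; ring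

theorem Q_three (n : ℕ) : Q 3 n = Q 1 n ^ 2 := by
  induction n with
  | zero => simp [Q]
  | succ n ih =>
    have h1 : Q 1 (n + 1) = Q 1 n + (n + 1) := by
      rw [Q, Finset.sum_Icc_succ_top (by omega), Q]; push_cast; ring
    have h3 : Q 3 (n + 1) = Q 3 n + (n + 1) ^ 3 := by
      rw [Q, Finset.sum_Icc_succ_top (by omega), Q]; push_cast; ring
    rw [h1, h3, ih]
    linear_combination (-((n : ℤ) + 1)) * Q_one n

/-- The criterion. -/
theorem criterion {m n : ℕ} (hm : Odd m) (h3 : 3 ≤ m) (hn : 1 ≤ n) :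
    Q 3 n ∣ Q m n ↔
      ∀ q : ℕ, q.Prime → q ≠ 2 → q ∣ n * (n + 1) → (q - 1) ∣ (m - 1) → q ∣ m := by
  -- the prime `q` divides exactly one of `n`, `n + 1`
  have hcop : Nat.Coprime n (n + 1) := by simp
  have hsplit : ∀ q : ℕ, q.Prime → q ∣ n * (n + 1) → ∃ N N' : ℕ, (N = n ∨ N = n + 1) ∧
      N * N' = n * (n + 1) ∧ q ∣ N ∧ ¬ q ∣ N' ∧ N ≠ 0 := by
    intro q hq hd
    rcases (hq.dvd_mul).1 hd with h | h
    · exact ⟨n, n + 1, Or.inl rfl, rfl, h, fun h' => hq.one_lt.ne'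
        (Nat.eq_one_of_dvd_coprimes hcop h h'), by omega⟩
    · exact ⟨n + 1, n, Or.inr rfl, by ring, h, fun h' => hq.one_lt.ne'
        (Nat.eq_one_of_dvd_coprimes hcop h' h), by omega⟩
  have hfac : ∀ q N : ℕ, q.Prime → q ∣ N → N ≠ 0 → ∃ a u : ℕ, 1 ≤ a ∧ ¬ q ∣ u ∧ N = q ^ a * u := by
    intro q N hq hd h0
    obtain ⟨a, u, hu, h⟩ := Nat.exists_eq_pow_mul_and_not_dvd h0 q hq.one_lt.ne'
    refine ⟨a, u, ?_, hu, h⟩
    rcases Nat.eq_zero_or_pos a with h1 | h1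
    · exfalso; rw [h1, pow_zero, one_mul] at h; rw [h] at hd; exact hu hd
    · exact h1
  constructor
  · intro hD q hq h2 hd hd1
    have := Fact.mk hq
    have hodd : q % 2 = 1 := by rcases hq.eq_two_or_odd with h | h <;> omega
    obtain ⟨N, N', hN, hNN, hqN, hqN', hN0⟩ := hsplit q hq hd
    obtain ⟨a, u, ha, hu, hNe⟩ := hfac q N hq hqN hN0
    refine (crit_odd hodd hm h3 ha hu hNe (Q_eq (by omega) n N hN)).1 (dvd_trans ?_ hD) hd1
    -- `q^(2a)` divides `Q 3 n`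
    rw [Q_three, mul_comm 2 a, pow_mul]
    apply pow_dvd_pow_of_dvd
    have hc : IsCoprime ((q : ℤ) ^ a) 2 := by
      apply IsCoprime.pow_left
      obtain ⟨l, hl⟩ : ∃ l : ℤ, (q : ℤ) = 2 * l + 1 := ⟨(q : ℤ) / 2, by omega⟩
      exact ⟨1, -l, by rw [hl]; ring⟩
    apply hc.dvd_of_dvd_mul_left
    rw [Q_one]
    refine ⟨u * N', ?_⟩
    have : ((n * (n + 1) : ℕ) : ℤ) = ((N * N' : ℕ) : ℤ) := by rw [hNN]
    push_cast at this
    rw [this, hNe]; push_cast; ring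
  · intro H
    -- work with natural numbers
    have hpos1 : 0 ≤ Q 1 n := Finset.sum_nonneg fun i _ => by positivity
    have hposm : 0 ≤ Q m n := Finset.sum_nonneg fun i _ => by positivity
    obtain ⟨h, hh⟩ := Int.eq_ofNat_of_zero_le hpos1
    obtain ⟨s, hs⟩ := Int.eq_ofNat_of_zero_le hposm
    have h2h : 2 * h = n * (n + 1) := by
      have := Q_one n
      rw [hh] at this
      exact_mod_cast this
    rw [Q_three, hh, hs]
    have key : h ^ 2 ∣ s := by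
      rw [Nat.dvd_iff_prime_pow_dvd_dvd]
      intro p k hp hk
      rcases Nat.eq_zero_or_pos k with hk0 | hk0
      · rw [hk0, pow_zero]; exact one_dvd _
      have := Fact.mk hp
      have hph : p ∣ h := hp.dvd_of_dvd_pow ((dvd_pow_self p (by omega)).trans hk)
      have hd : p ∣ n * (n + 1) := h2h ▸ hph.mul_left 2
      obtain ⟨N, N', hN, hNN, hqN, hqN', hN0⟩ := hsplit p hp hd
      obtain ⟨a, u, ha, hu, hNe⟩ := hfac p N hp hqN hN0
      have hSN := Q_eq (m := m) (by omega) n N hN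
      rw [hs] at hSN
      have hcopk : Nat.Coprime (p ^ k) ((u * N') ^ 2) := by
        apply Nat.Coprime.pow
        rw [hp.coprime_iff_not_dvd]
        intro h'
        rcases (hp.dvd_mul).1 h' with h'' | h''
        · exact hu h''
        · exact hqN' h''
      by_cases hp2 : p = 2
      · subst hp2
        obtain ⟨b, rfl⟩ : ∃ b, a = b + 1 := ⟨a - 1, by omega⟩
        have hS := crit_two hm h3 hNe hSN
        have hle : 2 ^ k ∣ 2 ^ (2 * b) := by
          apply hcopk.dvd_of_dvd_mul_right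
          have e : h ^ 2 = 2 ^ (2 * b) * (u * N') ^ 2 := by
            have e1 : 2 * h = 2 * (2 ^ b * (u * N')) := by
              rw [h2h, ← hNN, hNe]; ring
            have e2 : h = 2 ^ b * (u * N') := by omega
            rw [e2]; ring
          rw [← e]; exact hk
        have hS' : 2 ^ (2 * b) ∣ s := by exact_mod_cast hS
        exact hle.trans hS'
      · have hodd : p % 2 = 1 := by rcases hp.eq_two_or_odd with h | h <;> omega
        have hS := (crit_odd hodd hm h3 ha hu hNe hSN).2 (H p hp hp2 hd)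
        have hle : p ^ k ∣ p ^ (2 * a) := by
          apply hcopk.dvd_of_dvd_mul_right
          have e : 4 * h ^ 2 = p ^ (2 * a) * (u * N') ^ 2 := by
            have e1 : 2 * h = p ^ a * (u * N') := by
              rw [h2h, ← hNN, hNe]; ring
            calc 4 * h ^ 2 = (2 * h) ^ 2 := by ring
              _ = _ := by rw [e1]; ring
          rw [← e]; exact hk.mul_left 4
        have hS' : p ^ (2 * a) ∣ s := by exact_mod_cast hS
        exact hle.trans hS'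
    exact_mod_cast key

end KS7_53.Psum
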